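import Pool.Agent.H65.BM.L.TH596.RO.Ess
import Pool.Agent.H65.BM.L.TH596.RO.Cpt
import Pool.Agent.H65.BM.L.TH596.RO.Pt

/-!
# The almost periodic part of the conjugation action
-/

set_option autoImplicit false
set_option linter.style.haveILetI false
set_option linter.unusedVariables false

namespace Pool.Agent.TH596.RO

open Metric Quaternion Set

section
variable {E : Type*} [NormedAddCommGroup E] [NormedSpace ℝ E]

/-- the algebra attached to `G` -/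
def DD (G : Subgroup (E ≃ₗᵢ[ℝ] E)) : Subalgebra ℝ (E →L[ℝ] E) := Al {G} (one_ne G) (one_inf G)

theorem mem_DD {G : Subgroup (E ≃ₗᵢ[ℝ] E)} {a : E →L[ℝ] E} :
    a ∈ DD G ↔ ∃ F : Submodule ℝ (E →L[ℝ] E), FiniteDimensional ℝ F ∧ ∀ T ∈ G, cj T a ∈ F := mem_Al_one

theorem tri_fd {A : Subalgebra ℝ (E →L[ℝ] E)}
    (h : Nonempty (A ≃ₐ[ℝ] ℝ) ∨ Nonempty (A ≃ₐ[ℝ] ℂ) ∨ Nonempty (A ≃ₐ[ℝ] ℍ[ℝ])) : FiniteDimensional ℝ A := by
  rcases h with ⟨⟨e⟩⟩ | ⟨⟨e⟩⟩ | ⟨⟨e⟩⟩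
  · exact Module.Finite.equiv e.symm.toLinearEquiv
  · exact Module.Finite.equiv e.symm.toLinearEquiv
  · exact Module.Finite.equiv e.symm.toLinearEquiv

theorem core_DD [CompleteSpace E] (hE : ¬ FiniteDimensional ℝ E) {G : Subgroup (E ≃ₗᵢ[ℝ] E)} (hG : AT G) :
    (Nonempty (DD G ≃ₐ[ℝ] ℝ) ∨ Nonempty (DD G ≃ₐ[ℝ] ℂ) ∨ Nonempty (DD G ≃ₐ[ℝ] ℍ[ℝ])) ∧
      ∀ a ∈ DD G, ∀ x, ‖a x‖ = ‖a‖ * ‖x‖ :=
  core hE (good_Al fun H hH => by rw [Set.mem_singleton_iff] at hH; rw [hH]; exact hG)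

/-- a subalgebra which is finite-dimensional and invariant lies in the algebra of `G` -/
theorem le_DD {G : Subgroup (E ≃ₗᵢ[ℝ] E)} {A : Subalgebra ℝ (E →L[ℝ] E)} (hA : FiniteDimensional ℝ A)
    (hinv : ∀ T ∈ G, ∀ a ∈ A, cj T a ∈ A) {a : E →L[ℝ] E} (ha : a ∈ A) : a ∈ DD G :=
  mem_DD.2 ⟨Subalgebra.toSubmodule A, hA, fun T hT => hinv T hT a ha⟩

/-- the algebra of all operators whose orbit is small in the sense of countable unions -/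
theorem fam_le_DD [CompleteSpace E] (hE : ¬ FiniteDimensional ℝ E) {G : Subgroup (E ≃ₗᵢ[ℝ] E)}
    (htr : ∀ x y : E, ‖x‖ = 1 → ‖y‖ = 1 → ∃ T ∈ G, T x = y) {a : E →L[ℝ] E}
    (ha : a ∈ Al (fam G) (fam_ne G) (fam_inf G)) : a ∈ DD G := by
  have h1 := core hE (A := Al (fam G) (fam_ne G) (fam_inf G)) (good_Al fun H hH => hH.2.at hE htr)
  refine le_DD (tri_fd h1.1) ?_ ha
  intro T hT b hb
  rw [mem_Al_fam] at hb ⊢
  obtain ⟨d, F, hF, hcov⟩ := hb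
  refine ⟨d, F, hF, fun S hS => ?_⟩
  rw [← cj_mul]
  exact hcov _ (G.mul_mem hS hT)

/-- `H = G`, or `G` is transitive and `H` has countable index -/
def Sb (G H : Subgroup (E ≃ₗᵢ[ℝ] E)) : Prop :=
  H = G ∨ ((∀ x y : E, ‖x‖ = 1 → ‖y‖ = 1 → ∃ T ∈ G, T x = y) ∧ H ≤ G ∧ CI G H)

theorem Sb.at [CompleteSpace E] (hE : ¬ FiniteDimensional ℝ E) {G H : Subgroup (E ≃ₗᵢ[ℝ] E)} (hG : AT G)
    (h : Sb G H) : AT H := by
  rcases h with rfl | ⟨h1, _, h2⟩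
  · exact hG
  · exact h2.at hE h1

theorem Sb.le [CompleteSpace E] (hE : ¬ FiniteDimensional ℝ E) {G H : Subgroup (E ≃ₗᵢ[ℝ] E)}
    (h : Sb G H) {a : E →L[ℝ] E} (ha : a ∈ DD H) : a ∈ DD G := by
  rcases h with rfl | ⟨h1, h2, h3⟩
  · exact ha
  · apply fam_le_DD hE h1
    obtain ⟨H', hH', F, hF⟩ := ha
    rw [Set.mem_singleton_iff] at hH'
    subst hH'
    exact ⟨H', ⟨h2, h3⟩, F, hF⟩

/-- conjugation as a bounded operator -/
noncomputable def cjL (T : E ≃ₗᵢ[ℝ] E) : (E →L[ℝ] E) →L[ℝ] (E →L[ℝ] E) :=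
  LinearMap.mkContinuous (cj T).toLinearMap 1 (fun a => by rw [one_mul]; exact norm_cj_le T a)

theorem cjL_apply (T : E ≃ₗᵢ[ℝ] E) (a : E →L[ℝ] E) : cjL T a = cj T a := rfl

theorem ap_op [CompleteSpace E] (hE : ¬ FiniteDimensional ℝ E) {G : Subgroup (E ≃ₗᵢ[ℝ] E)} (hG : AT G)
    {a : E →L[ℝ] E} (ha : TotallyBounded {c | ∃ T ∈ G, c = cj T a}) : a ∈ DD G := by
  have hfd : FiniteDimensional ℝ (DD G) := tri_fd (core_DD hE hG).1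
  have hcl : IsClosed ((Subalgebra.toSubmodule (DD G) : Submodule ℝ (E →L[ℝ] E)) : Set (E →L[ℝ] E)) := by
    haveI : FiniteDimensional ℝ (Subalgebra.toSubmodule (DD G)) := hfd
    exact Submodule.closed_of_finiteDimensional _
  have hmem : a ∈ closure ((Subalgebra.toSubmodule (DD G) : Submodule ℝ (E →L[ℝ] E)) : Set (E →L[ℝ] E)) := by
    rw [Metric.mem_closure_iff]
    intro ε hε
    let σ : G → ((E →L[ℝ] E) →L[ℝ] (E →L[ℝ] E)) := fun T => cjL (T : E ≃ₗᵢ[ℝ] E)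
    have hσ : Rp σ :=
      { one := fun v => cj_one v
        mul := fun S T v => cj_mul (S : E ≃ₗᵢ[ℝ] E) T v
        le := fun T v => norm_cj_le (T : E ≃ₗᵢ[ℝ] E) v }
    obtain ⟨w, hw, F, hF, hFw⟩ := ap_main hσ (b := a) (by
      refine TotallyBounded.subset ?_ ha
      rintro _ ⟨T, rfl⟩
      exact ⟨T, T.2, rfl⟩) hε
    refine ⟨w, mem_DD.2 ⟨F, hF, fun T hT => hFw ⟨T, hT⟩⟩, ?_⟩
    rw [dist_comm, dist_eq_norm]
    exact hw
  rw [hcl.closure_eq] at hmem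
  exact hmem

/-- a normal subgroup with one totally bounded orbit -/
theorem ap_normal [CompleteSpace E] (hE : ¬ FiniteDimensional ℝ E) {H : Subgroup (E ≃ₗᵢ[ℝ] E)} (hH : AT H)
    {N : Subgroup (E ≃ₗᵢ[ℝ] E)} (hN : ∀ T ∈ H, ∀ S ∈ N, T * S * T⁻¹ ∈ N) {x0 : E} (hx0 : x0 ≠ 0)
    (hb : TotallyBounded {y | ∃ S ∈ N, y = S x0}) {S : E ≃ₗᵢ[ℝ] E} (hS : S ∈ N) :
    (S.toContinuousLinearEquiv : E →L[ℝ] E) ∈ DD H := by
  let σ : N → (E →L[ℝ] E) := fun S => ((S : E ≃ₗᵢ[ℝ] E).toContinuousLinearEquiv : E →L[ℝ] E)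
  have hσ : Rp σ :=
    { one := fun v => rfl
      mul := fun S T v => rfl
      le := fun T v => ((T : E ≃ₗᵢ[ℝ] E).norm_map v).le }
  obtain ⟨w, hw, F, hF, hFw⟩ := ap_main hσ (b := x0) (by
      refine TotallyBounded.subset ?_ hb
      rintro _ ⟨T, rfl⟩
      exact ⟨T, T.2, rfl⟩) (norm_pos_iff.2 hx0)
  have hw0 : w ≠ 0 := by
    rintro rfl
    rw [zero_sub, norm_neg] at hw
    exact lt_irrefl _ hw
  let 𝒩 : Submodule ℝ (E →L[ℝ] E) := Submodule.span ℝ (range σ)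
  have hinv : Inv H 𝒩 := by
    intro T hT c hc
    have : 𝒩 ≤ 𝒩.comap (cl T) := by
      rw [Submodule.span_le]
      rintro _ ⟨R, rfl⟩
      exact Submodule.subset_span ⟨⟨T * R * T⁻¹, hN T hT R R.2⟩, rfl⟩
    exact this hc
  have hval : ∀ c ∈ 𝒩, c w ∈ F := by
    intro c hc
    have : 𝒩 ≤ F.comap (ContinuousLinearMap.apply ℝ E w : (E →L[ℝ] E) →L[ℝ] E).toLinearMap := by
      rw [Submodule.span_le]
      rintro _ ⟨R, rfl⟩
      exact hFw R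
    exact this hc
  have hfd : FiniteDimensional ℝ 𝒩 := op_fd hE hH hinv hw0 hF hval
  exact mem_DD.2 ⟨𝒩, hfd, fun T hT => hinv T hT _ (Submodule.subset_span ⟨⟨S, hS⟩, rfl⟩)⟩

/-- an invariant subspace which is finite-dimensional at one vector -/
theorem pt_op (hE : ¬ FiniteDimensional ℝ E) {H : Subgroup (E ≃ₗᵢ[ℝ] E)} (hH : AT H)
    {𝒩 : Submodule ℝ (E →L[ℝ] E)} (hN : ∀ T ∈ H, ∀ a ∈ 𝒩, cj T a ∈ 𝒩) {x0 : E} (hx0 : x0 ≠ 0)
    {W : Submodule ℝ E} (hW : FiniteDimensional ℝ W) (hNW : ∀ a ∈ 𝒩, a x0 ∈ W) {a : E →L[ℝ] E}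
    (ha : a ∈ 𝒩) : a ∈ DD H :=
  mem_DD.2 ⟨𝒩, op_fd hE hH hN hx0 hW hNW, fun T hT => hN T hT a ha⟩

/-- all nonzero members bounded below -/
theorem core_of_below [CompleteSpace E] (hE : ¬ FiniteDimensional ℝ E) {A : Subalgebra ℝ (E →L[ℝ] E)}
    (hA : ∀ a ∈ A, a ≠ 0 → ∃ δ : ℝ, 0 < δ ∧ ∀ y : E, δ * ‖y‖ ≤ ‖a y‖) :
    Nonempty (A ≃ₐ[ℝ] ℝ) ∨ Nonempty (A ≃ₐ[ℝ] ℂ) ∨ Nonempty (A ≃ₐ[ℝ] ℍ[ℝ]) := by
  have hEn : Nontrivial E := nontriv hE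
  have hnt : Nontrivial (E →L[ℝ] E) := inferInstance
  have hnz : NoZeroDivisors A := by
    refine ⟨fun {a b} hab => ?_⟩
    by_contra hcon
    push Not at hcon
    have ha0 : (a : E →L[ℝ] E) ≠ 0 := fun h => hcon.1 (Subtype.ext h)
    have hb0 : (b : E →L[ℝ] E) ≠ 0 := fun h => hcon.2 (Subtype.ext h)
    obtain ⟨δ, hδ, h1⟩ := hA a a.2 ha0
    obtain ⟨δ', hδ', h2⟩ := hA b b.2 hb0
    obtain ⟨y, hy⟩ := exists_ne (0 : E)
    have hyn : 0 < ‖y‖ := norm_pos_iff.2 hy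
    have h3 : (a : E →L[ℝ] E) ((b : E →L[ℝ] E) y) = 0 := by
      have := congrArg (fun z : A => (z : E →L[ℝ] E) y) hab
      exact this
    have h4 := h1 ((b : E →L[ℝ] E) y)
    rw [h3, norm_zero] at h4
    have h5 := h2 y
    have : 0 < δ * (δ' * ‖y‖) := by positivity
    nlinarith
  have hQ : Quad A := by
    intro a
    obtain ⟨s, t, h⟩ := exists_quad (a : E →L[ℝ] E)
    refine ⟨s, t, ?_⟩
    by_contra hne
    set q : A := (a - algebraMap ℝ A s) * (a - algebraMap ℝ A s) + algebraMap ℝ A (t * t) with hq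
    have hq0 : (q : E →L[ℝ] E) ≠ 0 := fun h => hne (Subtype.ext h)
    obtain ⟨δ, hδ, h1⟩ := hA q q.2 hq0
    obtain ⟨y, hy, hy2⟩ := h (δ / 2) (by positivity)
    have hyn : 0 < ‖y‖ := norm_pos_iff.2 hy
    have h3 : (q : E →L[ℝ] E) y = ((a : E →L[ℝ] E) - algebraMap ℝ (E →L[ℝ] E) s)
        (((a : E →L[ℝ] E) - algebraMap ℝ (E →L[ℝ] E) s) y) + (t * t) • y := by
      rw [hq]
      have : (((a - algebraMap ℝ A s) * (a - algebraMap ℝ A s) + algebraMap ℝ A (t * t) : A) : E →L[ℝ] E) =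
          ((a : E →L[ℝ] E) - algebraMap ℝ (E →L[ℝ] E) s) * ((a : E →L[ℝ] E) - algebraMap ℝ (E →L[ℝ] E) s) +
            algebraMap ℝ (E →L[ℝ] E) (t * t) := rfl
      rw [this, add_apply, mul_apply_eq_comp, Algebra.algebraMap_eq_smul_one (t * t), smul_apply,
        one_apply_eq_self]
    rw [← h3] at hy2
    have h4 := h1 y
    nlinarith
  exact frobenius hQ

/-- the operators with countable orbits at all vectors -/
def Ao (G : Subgroup (E ≃ₗᵢ[ℝ] E)) : Subalgebra ℝ (E →L[ℝ] E) where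
  carrier := {a | ∀ x : E, {y | ∃ T ∈ G, y = cj T a x}.Countable}
  mul_mem' := by
    intro a b ha hb x
    refine Set.Countable.mono ?_ ((hb x).biUnion fun y _ => ha y)
    rintro _ ⟨T, hT, rfl⟩
    refine mem_iUnion₂.2 ⟨cj T b x, ⟨T, hT, rfl⟩, ⟨T, hT, ?_⟩⟩
    rw [map_mul]; rfl
  add_mem' := by
    intro a b ha hb x
    refine Set.Countable.mono ?_ ((ha x).image2 (hb x) (fun y z => y + z))
    rintro _ ⟨T, hT, rfl⟩
    refine ⟨cj T a x, ⟨T, hT, rfl⟩, cj T b x, ⟨T, hT, rfl⟩, ?_⟩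
    rw [map_add]; rfl
  algebraMap_mem' := by
    intro r x
    refine Set.Countable.mono ?_ (Set.countable_singleton (algebraMap ℝ (E →L[ℝ] E) r x))
    rintro _ ⟨T, hT, rfl⟩
    rw [AlgHom.commutes]
    rfl

theorem Ao_const (hE : ¬ FiniteDimensional ℝ E) {G : Subgroup (E ≃ₗᵢ[ℝ] E)}
    (htr : ∀ x y : E, ‖x‖ = 1 → ‖y‖ = 1 → ∃ T ∈ G, T x = y) {a : E →L[ℝ] E} (ha : a ∈ Ao G)
    {x y : E} (hx : ‖x‖ = 1) (hy : ‖y‖ = 1) : ‖a x‖ = ‖a y‖ := by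
  have hrank : 1 < Module.rank ℝ E := by
    have := (Module.rank_lt_aleph0_iff (R := ℝ) (M := E)).not.2 hE
    rw [not_lt] at this
    exact lt_of_lt_of_le Cardinal.one_lt_aleph0 this
  have hpre : IsPreconnected (sphere (0 : E) 1) := isPreconnected_sphere hrank 0 1
  have hpre2 : IsPreconnected ((fun z : E => ‖a z‖) '' sphere (0 : E) 1) :=
    hpre.image _ (by fun_prop)
  have hcount : ((fun z : E => ‖a z‖) '' sphere (0 : E) 1).Countable := by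
    refine Set.Countable.mono ?_ ((ha x).image fun z => ‖z‖)
    rintro _ ⟨z, hz, rfl⟩
    rw [mem_sphere, dist_zero_right] at hz
    obtain ⟨T, hT, hTz⟩ := htr z x hz hx
    refine ⟨cj T a x, ⟨T, hT, rfl⟩, ?_⟩
    show ‖cj T a x‖ = ‖a z‖
    rw [← hTz, cj_apply', T.norm_map]
  have hsub := hcount.isTotallyDisconnected _ subset_rfl hpre2
  exact hsub ⟨x, by rw [mem_sphere, dist_zero_right]; exact hx, rfl⟩
    ⟨y, by rw [mem_sphere, dist_zero_right]; exact hy, rfl⟩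

theorem Ao_below (hE : ¬ FiniteDimensional ℝ E) {G : Subgroup (E ≃ₗᵢ[ℝ] E)}
    (htr : ∀ x y : E, ‖x‖ = 1 → ‖y‖ = 1 → ∃ T ∈ G, T x = y) {a : E →L[ℝ] E} (ha : a ∈ Ao G)
    (ha0 : a ≠ 0) : ∃ δ : ℝ, 0 < δ ∧ ∀ y : E, δ * ‖y‖ ≤ ‖a y‖ := by
  obtain ⟨v, hv⟩ : ∃ v, a v ≠ 0 := by
    by_contra hcon
    push Not at hcon
    exact ha0 (ContinuousLinearMap.ext hcon)
  have hv0 : v ≠ 0 := by
    rintro rfl
    exact hv (map_zero a)
  have hvn : 0 < ‖v‖ := norm_pos_iff.2 hv0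
  have hu1 : ‖(‖v‖⁻¹ : ℝ) • v‖ = 1 := by
    rw [norm_smul, norm_inv, norm_norm, inv_mul_cancel₀ hvn.ne']
  refine ⟨‖a ((‖v‖⁻¹ : ℝ) • v)‖, ?_, fun y => ?_⟩
  · rw [norm_pos_iff, map_smul]
    exact smul_ne_zero (inv_ne_zero hvn.ne') hv
  · by_cases hy : y = 0
    · rw [hy, norm_zero, mul_zero]; exact norm_nonneg _
    have hyn : 0 < ‖y‖ := norm_pos_iff.2 hy
    have h1 : ‖(‖y‖⁻¹ : ℝ) • y‖ = 1 := by
      rw [norm_smul, norm_inv, norm_norm, inv_mul_cancel₀ hyn.ne']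
    rw [Ao_const hE htr ha hu1 h1, map_smul, norm_smul, norm_inv, norm_norm]
    apply le_of_eq
    field_simp

/-- a countable orbit at one vector -/
theorem count_op [CompleteSpace E] (hE : ¬ FiniteDimensional ℝ E) {G : Subgroup (E ≃ₗᵢ[ℝ] E)}
    (htr : ∀ x y : E, ‖x‖ = 1 → ‖y‖ = 1 → ∃ T ∈ G, T x = y) {a : E →L[ℝ] E} {x0 : E} (hx0 : x0 ≠ 0)
    (ha : {y | ∃ T ∈ G, y = cj T a x0}.Countable) : a ∈ DD G := by
  have hx0n : ‖x0‖ ≠ 0 := norm_ne_zero_iff.2 hx0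
  have hmem : a ∈ Ao G := by
    intro x
    by_cases hx : x = 0
    · refine Set.Countable.mono ?_ (Set.countable_singleton (0 : E))
      rintro _ ⟨T, hT, rfl⟩
      rw [hx, map_zero]; rfl
    have hxn : ‖x‖ ≠ 0 := norm_ne_zero_iff.2 hx
    obtain ⟨S, hS, hSx⟩ := htr ((‖x0‖⁻¹ : ℝ) • x0) ((‖x‖⁻¹ : ℝ) • x)
      (by rw [norm_smul, norm_inv, norm_norm, inv_mul_cancel₀ hx0n])
      (by rw [norm_smul, norm_inv, norm_norm, inv_mul_cancel₀ hxn])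
    have hx2 : x = (‖x‖ * ‖x0‖⁻¹) • S x0 := by
      rw [map_smul] at hSx
      rw [mul_smul, hSx, smul_smul, mul_inv_cancel₀ hxn, one_smul]
    refine Set.Countable.mono ?_ (ha.image fun z => (‖x‖ * ‖x0‖⁻¹) • S z)
    rintro _ ⟨T, hT, rfl⟩
    refine ⟨cj (S⁻¹ * T) a x0, ⟨_, G.mul_mem (G.inv_mem hS) hT, rfl⟩, ?_⟩
    show (‖x‖ * ‖x0‖⁻¹) • S (cj (S⁻¹ * T) a x0) = cj T a x
    have h1 : S (cj (S⁻¹ * T) a x0) = cj T a (S x0) := by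
      rw [← cj_apply' S, cj_mul, cj_cj_inv]
    rw [h1]
    conv_rhs => rw [hx2]
    rw [map_smul]
  refine le_DD (tri_fd (core_of_below hE fun b hb hb0 => Ao_below hE htr hb hb0)) ?_ hmem
  intro T hT b hb x
  refine Set.Countable.mono ?_ (hb x)
  rintro _ ⟨S, hS, rfl⟩
  exact ⟨S * T, G.mul_mem hS hT, by rw [cj_mul]⟩

/-- invariance of the algebra -/
theorem DD_inv {G : Subgroup (E ≃ₗᵢ[ℝ] E)} {T : E ≃ₗᵢ[ℝ] E} (hT : T ∈ G) {a : E →L[ℝ] E} (ha : a ∈ DD G) :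
    cj T a ∈ DD G := by
  rw [mem_DD] at ha ⊢
  obtain ⟨F, hF, h⟩ := ha
  refine ⟨F, hF, fun S hS => ?_⟩
  rw [← cj_mul]
  exact h _ (G.mul_mem hS hT)

end

end Pool.Agent.TH596.RO
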