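import Mathlib

/-!
# Finite-dimensional spaces of operators invariant under an almost transitive group of isometries

All nonzero members are bounded below (on an infinite-dimensional space).
-/

set_option autoImplicit false

namespace Pool.Agent.TH596.RO

open Metric

section
variable {E : Type*} [NormedAddCommGroup E] [NormedSpace ℝ E]

/-- conjugation by an isometry -/
noncomputable def cj (T : E ≃ₗᵢ[ℝ] E) : (E →L[ℝ] E) →ₐ[ℝ] (E →L[ℝ] E) where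
  toFun a := (T.toContinuousLinearEquiv : E →L[ℝ] E).comp
    (a.comp (T.symm.toContinuousLinearEquiv : E →L[ℝ] E))
  map_one' := by ext x; simp
  map_mul' a b := by ext x; simp
  map_zero' := by ext x; simp
  map_add' a b := by ext x; simp
  commutes' r := by ext x; simp [Algebra.algebraMap_eq_smul_one]

theorem cj_apply (T : E ≃ₗᵢ[ℝ] E) (a : E →L[ℝ] E) (x : E) : cj T a x = T (a (T.symm x)) := rfl

theorem cj_apply' (T : E ≃ₗᵢ[ℝ] E) (a : E →L[ℝ] E) (x : E) : cj T a (T x) = T (a x) := by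
  rw [cj_apply, T.symm_apply_apply]

theorem norm_cj_le (T : E ≃ₗᵢ[ℝ] E) (a : E →L[ℝ] E) : ‖cj T a‖ ≤ ‖a‖ := by
  apply ContinuousLinearMap.opNorm_le_bound _ (norm_nonneg _)
  intro x
  rw [cj_apply, T.norm_map]
  refine (a.le_opNorm _).trans (le_of_eq ?_)
  rw [T.symm.norm_map]

theorem cj_symm (T : E ≃ₗᵢ[ℝ] E) (a : E →L[ℝ] E) : cj T.symm (cj T a) = a := by
  ext x
  rw [cj_apply, cj_apply, LinearIsometryEquiv.symm_symm, T.symm_apply_apply, T.symm_apply_apply]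

theorem norm_cj (T : E ≃ₗᵢ[ℝ] E) (a : E →L[ℝ] E) : ‖cj T a‖ = ‖a‖ := by
  apply le_antisymm (norm_cj_le T a)
  conv_lhs => rw [← cj_symm T a]
  exact norm_cj_le _ _

/-- orbits on the unit sphere are dense -/
def AT (H : Subgroup (E ≃ₗᵢ[ℝ] E)) : Prop :=
  ∀ x y : E, ‖x‖ = 1 → ‖y‖ = 1 → ∀ ε : ℝ, 0 < ε → ∃ T ∈ H, ‖T x - y‖ < ε

/-- `F` is invariant under conjugation -/
def Inv (H : Subgroup (E ≃ₗᵢ[ℝ] E)) (F : Submodule ℝ (E →L[ℝ] E)) : Prop :=
  ∀ T ∈ H, ∀ c ∈ F, cj T c ∈ F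

/-- evaluation -/
def ev (F : Submodule ℝ (E →L[ℝ] E)) (y : E) : F →ₗ[ℝ] E where
  toFun c := (c : E →L[ℝ] E) y
  map_add' a b := rfl
  map_smul' r a := rfl

theorem ev_apply (F : Submodule ℝ (E →L[ℝ] E)) (y : E) (c : F) : ev F y c = (c : E →L[ℝ] E) y := rfl

theorem kill_all {H : Subgroup (E ≃ₗᵢ[ℝ] E)} (hH : AT H) {F : Submodule ℝ (E →L[ℝ] E)}
    [FiniteDimensional ℝ F] (hF : Inv H F) {c : E →L[ℝ] E} (hc : c ∈ F) (hc0 : c ≠ 0)
    {y0 : E} (hy0 : y0 ≠ 0) (hcy : c y0 = 0) (y : E) : ∃ c' ∈ F, c' ≠ 0 ∧ c' y = 0 := by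
  by_cases hy : y = 0
  · exact ⟨c, hc, hc0, by rw [hy, map_zero]⟩
  have hcn : 0 < ‖c‖ := norm_pos_iff.2 hc0
  -- normalise
  have key : ∀ z : E, ‖z‖ = 1 → ∃ c' ∈ F, c' ≠ 0 ∧ c' z = 0 := by
    intro z hz
    have hy1 : ‖(‖y0‖⁻¹ : ℝ) • y0‖ = 1 := by
      rw [norm_smul, norm_inv, norm_norm, inv_mul_cancel₀ (norm_ne_zero_iff.2 hy0)]
    have hcy1 : c ((‖y0‖⁻¹ : ℝ) • y0) = 0 := by rw [map_smul, hcy, smul_zero]
    have hK : IsCompact (sphere (0 : F) ‖c‖) := isCompact_sphere _ _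
    have hne : (sphere (0 : F) ‖c‖).Nonempty := ⟨⟨c, hc⟩, by simp⟩
    have hcont : ContinuousOn (fun c' : F => ‖(c' : E →L[ℝ] E) z‖) (sphere (0 : F) ‖c‖) := by
      apply Continuous.continuousOn
      fun_prop
    obtain ⟨c', hc', hmin⟩ := hK.exists_isMinOn hne hcont
    have hc'n : ‖(c' : E →L[ℝ] E)‖ = ‖c‖ := by simpa using hc'
    refine ⟨c', c'.2, fun h => by rw [h, norm_zero] at hc'n; exact hcn.ne hc'n, ?_⟩
    rw [← norm_le_zero_iff]
    apply le_of_forall_pos_le_add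
    intro ε hε
    obtain ⟨T, hT, hTy⟩ := hH _ z hy1 hz (ε / ‖c‖) (by positivity)
    have h1 : ‖(c' : E →L[ℝ] E) z‖ ≤ ‖cj T c z‖ := by
      have := isMinOn_iff.1 hmin ⟨cj T c, hF T hT c hc⟩ (by simp [norm_cj])
      exact this
    have h2 : cj T c z = - cj T c (T ((‖y0‖⁻¹ : ℝ) • y0) - z) := by
      rw [map_sub, cj_apply', hcy1, map_zero, zero_sub, neg_neg]
    calc ‖(c' : E →L[ℝ] E) z‖ ≤ ‖cj T c z‖ := h1
      _ = ‖cj T c (T ((‖y0‖⁻¹ : ℝ) • y0) - z)‖ := by rw [h2, norm_neg]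
      _ ≤ ‖cj T c‖ * ‖T ((‖y0‖⁻¹ : ℝ) • y0) - z‖ := (cj T c).le_opNorm _
      _ ≤ ‖c‖ * (ε / ‖c‖) := by
          rw [norm_cj]; exact mul_le_mul_of_nonneg_left hTy.le hcn.le
      _ = 0 + ε := by field_simp; ring
  have hyn : ‖y‖ ≠ 0 := norm_ne_zero_iff.2 hy
  obtain ⟨c', h1, h2, h3⟩ := key ((‖y‖⁻¹ : ℝ) • y) (by
    rw [norm_smul, norm_inv, norm_norm, inv_mul_cancel₀ hyn])
  refine ⟨c', h1, h2, ?_⟩
  rw [map_smul] at h3
  exact (smul_eq_zero.1 h3).resolve_left (inv_ne_zero hyn)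

/-- Amitsur's lemma on locally linearly dependent operators -/
theorem amitsur {F : Submodule ℝ (E →L[ℝ] E)} [FiniteDimensional ℝ F]
    (h : ∀ y : E, ∃ c' ∈ F, c' ≠ 0 ∧ c' y = 0) :
    ∃ c ∈ F, c ≠ 0 ∧ ∃ W : Submodule ℝ E, FiniteDimensional ℝ W ∧ ∀ v, c v ∈ W := by
  classical
  obtain ⟨y1, hy1⟩ : ∃ y1 : E, ∀ y, Module.finrank ℝ (LinearMap.range (ev F y)) ≤
      Module.finrank ℝ (LinearMap.range (ev F y1)) := by
    have hb : BddAbove (Set.range fun y : E => Module.finrank ℝ (LinearMap.range (ev F y))) := by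
      refine ⟨Module.finrank ℝ F, ?_⟩
      rintro _ ⟨y, rfl⟩
      exact LinearMap.finrank_range_le _
    obtain ⟨y1, hy1⟩ := Nat.sSup_mem (Set.range_nonempty _) hb
    refine ⟨y1, fun y => ?_⟩
    show _ ≤ (fun y : E => Module.finrank ℝ (LinearMap.range (ev F y))) y1
    rw [hy1]
    exact le_csSup hb ⟨y, rfl⟩
  obtain ⟨c, hc, hc0, hcy⟩ := h y1
  refine ⟨c, hc, hc0, LinearMap.range (ev F y1), inferInstance, fun v => ?_⟩
  by_contra hv
  set r := Module.finrank ℝ (LinearMap.range (ev F y1)) with hr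
  let b := Module.finBasis ℝ (LinearMap.range (ev F y1))
  have hb : ∀ i, ∃ d : F, ev F y1 d = b i := fun i => (b i).2
  choose d hd using hb
  -- the family
  let g : ℝ → Fin (r + 1) → E := fun t => Fin.cons (c v) (fun i => (d i : E →L[ℝ] E) (y1 + t • v))
  have hg0 : LinearIndependent ℝ (g 0) := by
    show LinearIndependent ℝ (Fin.cons (c v) _)
    rw [linearIndependent_finCons]
    have he : (fun i => (d i : E →L[ℝ] E) (y1 + (0 : ℝ) • v)) = fun i => ((b i : LinearMap.range (ev F y1)) : E) := by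
      funext i
      rw [zero_smul, add_zero]
      exact hd i
    rw [he]
    have hli : LinearIndependent ℝ (fun i => ((b i : LinearMap.range (ev F y1)) : E)) :=
      b.linearIndependent.map' (LinearMap.range (ev F y1)).subtype (Submodule.ker_subtype _)
    refine ⟨hli, fun hmem => hv ?_⟩
    have : Submodule.span ℝ (Set.range fun i => ((b i : LinearMap.range (ev F y1)) : E)) ≤ LinearMap.range (ev F y1) := by
      rw [Submodule.span_le]
      rintro _ ⟨i, rfl⟩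
      exact (b i).2
    exact this hmem
  have hgc : Continuous g := by
    apply continuous_pi
    intro j
    refine Fin.cases ?_ (fun i => ?_) j
    · exact continuous_const
    · show Continuous fun t : ℝ => (d i : E →L[ℝ] E) (y1 + t • v)
      fun_prop
  have hopen : IsOpen (g ⁻¹' {f | LinearIndependent ℝ f}) := isOpen_setOfPred_linearIndependent.preimage hgc
  obtain ⟨ε, hε, hball⟩ := Metric.isOpen_iff.1 hopen 0 hg0
  have ht : LinearIndependent ℝ (g (ε / 2)) := by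
    apply hball
    rw [mem_ball, dist_zero_right, Real.norm_of_nonneg (by positivity)]
    linarith
  have hε2 : ε / 2 ≠ 0 := by positivity
  have hmem : ∀ j, g (ε / 2) j ∈ LinearMap.range (ev F (y1 + (ε / 2) • v)) := by
    intro j
    refine Fin.cases ?_ (fun i => ?_) j
    · refine ⟨(ε / 2)⁻¹ • ⟨c, hc⟩, ?_⟩
      rw [ev_apply]
      show (ε / 2)⁻¹ • c (y1 + (ε / 2) • v) = c v
      rw [map_add, hcy, zero_add, map_smul, smul_smul, inv_mul_cancel₀ hε2, one_smul]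
    · exact ⟨d i, rfl⟩
  have hli2 : LinearIndependent ℝ (fun j => (⟨g (ε / 2) j, hmem j⟩ : LinearMap.range (ev F (y1 + (ε / 2) • v)))) := by
    apply LinearIndependent.of_comp (LinearMap.range (ev F (y1 + (ε / 2) • v))).subtype
    exact ht
  have hcard := hli2.fintype_card_le_finrank
  rw [Fintype.card_fin] at hcard
  have := hy1 (y1 + (ε / 2) • v)
  omega

/-- no nonzero member of finite rank -/
theorem no_finite_rank (hE : ¬ FiniteDimensional ℝ E) {H : Subgroup (E ≃ₗᵢ[ℝ] E)} (hH : AT H)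
    {F : Submodule ℝ (E →L[ℝ] E)} [FiniteDimensional ℝ F] (hF : Inv H F) {c : E →L[ℝ] E} (hc : c ∈ F)
    {W : Submodule ℝ E} (hW : FiniteDimensional ℝ W) (hcW : ∀ v, c v ∈ W) : c = 0 := by
  by_contra hc0
  -- the members of finite rank
  let Fr : Submodule ℝ (E →L[ℝ] E) :=
    { carrier := {c | c ∈ F ∧ ∃ W : Submodule ℝ E, FiniteDimensional ℝ W ∧ ∀ v, c v ∈ W}
      zero_mem' := ⟨F.zero_mem, ⊥, inferInstance, fun v => by simp⟩
      add_mem' := by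
        rintro a b ⟨ha, Wa, hWa, ha2⟩ ⟨hb, Wb, hWb, hb2⟩
        exact ⟨F.add_mem ha hb, Wa ⊔ Wb, inferInstance, fun v =>
          (Wa ⊔ Wb).add_mem ((le_sup_left : Wa ≤ Wa ⊔ Wb) (ha2 v)) ((le_sup_right : Wb ≤ Wa ⊔ Wb) (hb2 v))⟩
      smul_mem' := by
        rintro s a ⟨ha, Wa, hWa, ha2⟩
        exact ⟨F.smul_mem s ha, Wa, hWa, fun v => Wa.smul_mem s (ha2 v)⟩ }
  have hFrF : Fr ≤ F := fun x hx => hx.1
  haveI : FiniteDimensional ℝ Fr := Submodule.finiteDimensional_of_le hFrF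
  let b := Module.finBasis ℝ Fr
  have hb : ∀ i, ∃ W : Submodule ℝ E, FiniteDimensional ℝ W ∧ ∀ v, ((b i : Fr) : E →L[ℝ] E) v ∈ W := fun i => (b i).2.2
  choose Wb hWb1 hWb2 using hb
  -- all values
  let R : Submodule ℝ E := Submodule.span ℝ {x | ∃ a ∈ Fr, ∃ v, x = a v}
  have hR1 : R ≤ ⨆ i, Wb i := by
    rw [Submodule.span_le]
    rintro _ ⟨a, ha, v, rfl⟩
    have h1 := b.sum_repr ⟨a, ha⟩
    have h2 : a = ∑ i, b.repr ⟨a, ha⟩ i • ((b i : Fr) : E →L[ℝ] E) := by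
      calc a = ((∑ i, b.repr ⟨a, ha⟩ i • b i : Fr) : E →L[ℝ] E) := by rw [h1]
        _ = ∑ i, b.repr ⟨a, ha⟩ i • ((b i : Fr) : E →L[ℝ] E) := by
          rw [Submodule.coe_sum]; rfl
    rw [h2]
    simp only [FunLike.coe_sum, Finset.sum_apply]
    apply Submodule.sum_mem
    intro i _
    exact Submodule.smul_mem _ _ ((le_iSup Wb i) (hWb2 i v))
  haveI : ∀ i, FiniteDimensional ℝ (Wb i) := hWb1
  haveI : FiniteDimensional ℝ (⨆ i, Wb i : Submodule ℝ E) := inferInstance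
  haveI hRfd : FiniteDimensional ℝ R := Submodule.finiteDimensional_of_le hR1
  have hRinv : ∀ T ∈ H, ∀ x ∈ R, T x ∈ R := by
    intro T hT x hx
    have : R ≤ R.comap (T.toLinearEquiv : E →ₗ[ℝ] E) := by
      rw [Submodule.span_le]
      rintro _ ⟨a, ha, v, rfl⟩
      show T (a v) ∈ R
      apply Submodule.subset_span
      refine ⟨cj T a, ⟨hF T hT a ha.1, ?_⟩, T v, (cj_apply' T a v).symm⟩
      obtain ⟨W', hW', ha'⟩ := ha.2
      refine ⟨W'.map (T.toLinearEquiv : E →ₗ[ℝ] E), inferInstance, fun v => ?_⟩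
      rw [cj_apply]
      exact ⟨_, ha' _, rfl⟩
    exact this hx
  have hcl : IsClosed (R : Set E) := R.closed_of_finiteDimensional
  -- a unit vector
  obtain ⟨v, hv⟩ : ∃ v, c v ≠ 0 := by
    by_contra hcon
    push Not at hcon
    exact hc0 (ContinuousLinearMap.ext hcon)
  have huR : (‖c v‖⁻¹ : ℝ) • c v ∈ R := R.smul_mem _ (Submodule.subset_span ⟨c, ⟨hc, W, hW, hcW⟩, v, rfl⟩)
  have hu1 : ‖(‖c v‖⁻¹ : ℝ) • c v‖ = 1 := by
    rw [norm_smul, norm_inv, norm_norm, inv_mul_cancel₀ (norm_ne_zero_iff.2 hv)]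
  have hall : ∀ z : E, ‖z‖ = 1 → z ∈ R := by
    intro z hz
    have : z ∈ closure (R : Set E) := by
      rw [Metric.mem_closure_iff]
      intro ε hε
      obtain ⟨T, hT, hTz⟩ := hH _ z hu1 hz ε hε
      refine ⟨_, hRinv T hT _ huR, ?_⟩
      rw [dist_comm, dist_eq_norm]
      exact hTz
    rwa [hcl.closure_eq] at this
  apply hE
  have htop : R = ⊤ := by
    rw [eq_top_iff]
    intro z _
    by_cases hz : z = 0
    · rw [hz]; exact R.zero_mem
    have h1 := hall ((‖z‖⁻¹ : ℝ) • z) (by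
      rw [norm_smul, norm_inv, norm_norm, inv_mul_cancel₀ (norm_ne_zero_iff.2 hz)])
    have h2 := R.smul_mem ‖z‖ h1
    rwa [smul_smul, mul_inv_cancel₀ (norm_ne_zero_iff.2 hz), one_smul] at h2
  rw [htop] at hRfd
  exact Module.Finite.equiv (Submodule.topEquiv : (⊤ : Submodule ℝ E) ≃ₗ[ℝ] E)

theorem inj (hE : ¬ FiniteDimensional ℝ E) {H : Subgroup (E ≃ₗᵢ[ℝ] E)} (hH : AT H)
    {F : Submodule ℝ (E →L[ℝ] E)} [FiniteDimensional ℝ F] (hF : Inv H F) {c : E →L[ℝ] E} (hc : c ∈ F)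
    (hc0 : c ≠ 0) {y : E} (hy : c y = 0) : y = 0 := by
  by_contra hy0
  obtain ⟨c', h1, h2, W, h3, h4⟩ := amitsur (fun z => kill_all hH hF hc hc0 hy0 hy z)
  exact h2 (no_finite_rank hE hH hF h1 h3 h4)

/-- nonzero members are bounded below -/
theorem below (hE : ¬ FiniteDimensional ℝ E) {H : Subgroup (E ≃ₗᵢ[ℝ] E)} (hH : AT H)
    {F : Submodule ℝ (E →L[ℝ] E)} [FiniteDimensional ℝ F] (hF : Inv H F) {c : E →L[ℝ] E} (hc : c ∈ F)
    (hc0 : c ≠ 0) : ∃ δ : ℝ, 0 < δ ∧ ∀ y : E, δ * ‖y‖ ≤ ‖c y‖ := by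
  have hcn : 0 < ‖c‖ := norm_pos_iff.2 hc0
  -- a unit vector
  obtain ⟨x, hx⟩ : ∃ x : E, ‖x‖ = 1 := by
    obtain ⟨v, hv⟩ : ∃ v, c v ≠ 0 := by
      by_contra hcon
      push Not at hcon
      exact hc0 (ContinuousLinearMap.ext hcon)
    exact ⟨(‖c v‖⁻¹ : ℝ) • c v, by
      rw [norm_smul, norm_inv, norm_norm, inv_mul_cancel₀ (norm_ne_zero_iff.2 hv)]⟩
  have hK : IsCompact (sphere (0 : F) ‖c‖) := isCompact_sphere _ _
  have hne : (sphere (0 : F) ‖c‖).Nonempty := ⟨⟨c, hc⟩, by simp⟩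
  have hcont : ContinuousOn (fun c' : F => ‖(c' : E →L[ℝ] E) x‖) (sphere (0 : F) ‖c‖) := by
    apply Continuous.continuousOn
    fun_prop
  obtain ⟨c', hc', hmin⟩ := hK.exists_isMinOn hne hcont
  have hc'n : ‖(c' : E →L[ℝ] E)‖ = ‖c‖ := by simpa using hc'
  have hc'0 : (c' : E →L[ℝ] E) ≠ 0 := fun h => by rw [h, norm_zero] at hc'n; exact hcn.ne hc'n
  have hδ : 0 < ‖(c' : E →L[ℝ] E) x‖ := by
    rw [norm_pos_iff]
    intro h
    have := inj hE hH hF c'.2 hc'0 h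
    rw [this, norm_zero] at hx
    exact zero_ne_one hx
  refine ⟨‖(c' : E →L[ℝ] E) x‖, hδ, ?_⟩
  have key : ∀ z : E, ‖z‖ = 1 → ‖(c' : E →L[ℝ] E) x‖ ≤ ‖c z‖ := by
    intro z hz
    apply le_of_forall_pos_le_add
    intro ε hε
    obtain ⟨T, hT, hTz⟩ := hH z x hz hx (ε / ‖c‖) (by positivity)
    have h1 : ‖(c' : E →L[ℝ] E) x‖ ≤ ‖cj T c x‖ :=
      isMinOn_iff.1 hmin ⟨cj T c, hF T hT c hc⟩ (by simp [norm_cj])
    have h2 : cj T c x = T (c z) - cj T c (T z - x) := by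
      rw [map_sub, cj_apply']; abel
    calc ‖(c' : E →L[ℝ] E) x‖ ≤ ‖cj T c x‖ := h1
      _ ≤ ‖T (c z)‖ + ‖cj T c (T z - x)‖ := by rw [h2]; exact norm_sub_le _ _
      _ ≤ ‖c z‖ + ‖cj T c‖ * ‖T z - x‖ := by
          rw [T.norm_map]; exact add_le_add le_rfl ((cj T c).le_opNorm _)
      _ ≤ ‖c z‖ + ‖c‖ * (ε / ‖c‖) := by
          rw [norm_cj]; exact add_le_add le_rfl (mul_le_mul_of_nonneg_left hTz.le hcn.le)
      _ = ‖c z‖ + ε := by rw [mul_div_cancel₀ _ hcn.ne']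
  intro y
  by_cases hy : y = 0
  · rw [hy, norm_zero, mul_zero]; exact norm_nonneg _
  have hyn : 0 < ‖y‖ := norm_pos_iff.2 hy
  have h1 := key ((‖y‖⁻¹ : ℝ) • y) (by
    rw [norm_smul, norm_inv, norm_norm, inv_mul_cancel₀ hyn.ne'])
  rw [map_smul, norm_smul, norm_inv, norm_norm, le_inv_mul_iff₀ hyn] at h1
  rw [mul_comm]
  exact h1

end

end Pool.Agent.TH596.RO
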