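import Mathlib

/-!
# For every bounded operator `a` of a real Banach space some `(a - s)² + t²` is not bounded below
-/

set_option autoImplicit false

namespace Pool.Agent.TH596.RO

/-- The complexification: real-linear maps `ℂ → Y`, a complex number acting by precomposition. -/
def CE (Y : Type*) [NormedAddCommGroup Y] [NormedSpace ℝ Y] : Type _ := ℂ →L[ℝ] Y

section
variable {Y : Type*} [NormedAddCommGroup Y] [NormedSpace ℝ Y]

noncomputable instance : NormedAddCommGroup (CE Y) :=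
  inferInstanceAs (NormedAddCommGroup (ℂ →L[ℝ] Y))

instance [CompleteSpace Y] : CompleteSpace (CE Y) :=
  inferInstanceAs (CompleteSpace (ℂ →L[ℝ] Y))

/-- the underlying map -/
def CE.fn (f : CE Y) : ℂ →L[ℝ] Y := f

/-- constructor -/
def CE.mk (f : ℂ →L[ℝ] Y) : CE Y := f

theorem CE.ext {f g : CE Y} (h : ∀ w, f.fn w = g.fn w) : f = g :=
  ContinuousLinearMap.ext h

noncomputable instance : SMul ℂ (CE Y) where
  smul z f := CE.mk (f.fn.comp (ContinuousLinearMap.mul ℝ ℂ z))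

theorem CE.smul_apply (z : ℂ) (f : CE Y) (w : ℂ) : (z • f).fn w = f.fn (z * w) := rfl

theorem CE.add_apply (f g : CE Y) (w : ℂ) : (f + g).fn w = f.fn w + g.fn w := rfl

theorem CE.sub_apply (f g : CE Y) (w : ℂ) : (f - g).fn w = f.fn w - g.fn w := rfl

theorem CE.zero_apply (w : ℂ) : (0 : CE Y).fn w = 0 := rfl

noncomputable instance : Module ℂ (CE Y) where
  one_smul f := CE.ext fun w => by rw [CE.smul_apply, one_mul]
  mul_smul a b f := CE.ext fun w => by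
    rw [CE.smul_apply, CE.smul_apply, CE.smul_apply, ← mul_assoc, mul_comm b a]
  smul_zero a := CE.ext fun w => by rw [CE.smul_apply, CE.zero_apply, CE.zero_apply]
  smul_add a f g := CE.ext fun w => by
    rw [CE.smul_apply, CE.add_apply, CE.add_apply, CE.smul_apply, CE.smul_apply]
  add_smul a b f := CE.ext fun w => by
    rw [CE.smul_apply, CE.add_apply, CE.smul_apply, CE.smul_apply, add_mul, map_add]
  zero_smul f := CE.ext fun w => by rw [CE.smul_apply, zero_mul, map_zero, CE.zero_apply]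

theorem CE.norm_def (f : CE Y) : ‖f‖ = ‖f.fn‖ := rfl

theorem CE.apply_le (f : CE Y) (w : ℂ) : ‖f.fn w‖ ≤ ‖f‖ * ‖w‖ := f.fn.le_opNorm w

theorem CE.norm_le {f : CE Y} {C : ℝ} (hC : 0 ≤ C) (h : ∀ w, ‖f.fn w‖ ≤ C * ‖w‖) :
    ‖f‖ ≤ C := ContinuousLinearMap.opNorm_le_bound _ hC h

noncomputable instance : NormedSpace ℂ (CE Y) where
  norm_smul_le z f := by
    apply CE.norm_le (by positivity)
    intro w
    rw [CE.smul_apply]
    calc ‖f.fn (z * w)‖ ≤ ‖f‖ * ‖z * w‖ := f.apply_le _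
      _ = ‖z‖ * ‖f‖ * ‖w‖ := by rw [norm_mul]; ring

/-- the extension of a bounded operator -/
noncomputable def CE.ext1 (a : Y →L[ℝ] Y) : CE Y →L[ℂ] CE Y :=
  LinearMap.mkContinuous
    { toFun := fun f => CE.mk (a.comp f.fn)
      map_add' := fun f g => CE.ext fun w => by
        show a (f.fn w + g.fn w) = a (f.fn w) + a (g.fn w)
        rw [map_add]
      map_smul' := fun z f => CE.ext fun w => rfl }
    ‖a‖ (fun f => ContinuousLinearMap.opNorm_comp_le a f.fn)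

theorem CE.ext1_apply (a : Y →L[ℝ] Y) (f : CE Y) (w : ℂ) : (CE.ext1 a f).fn w = a (f.fn w) := rfl

instance [Nontrivial Y] : Nontrivial (CE Y) := by
  obtain ⟨y, hy⟩ := exists_ne (0 : Y)
  refine ⟨CE.mk (ContinuousLinearMap.smulRight Complex.reCLM y), 0, fun h => hy ?_⟩
  have h1 : (1 : ℂ).re • y = 0 := congrArg (fun f => CE.fn f 1) h
  rwa [Complex.one_re, one_smul] at h1

theorem exists_unit_dir (k : ℂ) : ∃ w : ℂ, ‖w‖ = 1 ∧ ∀ η : ℝ, 0 ≤ η → ‖k + η • w‖ = ‖k‖ + η := by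
  by_cases hk : k = 0
  · refine ⟨1, norm_one, fun η hη => ?_⟩
    rw [hk, zero_add, norm_zero, zero_add, norm_smul, norm_one, mul_one, Real.norm_of_nonneg hη]
  · have hk0 : 0 < ‖k‖ := norm_pos_iff.2 hk
    refine ⟨(‖k‖⁻¹ : ℝ) • k, ?_, fun η hη => ?_⟩
    · rw [norm_smul, norm_inv, norm_norm, inv_mul_cancel₀ hk0.ne']
    · have : k + η • (‖k‖⁻¹ : ℝ) • k = (1 + η * ‖k‖⁻¹ : ℝ) • k := by
        rw [add_smul, one_smul, smul_smul]
      rw [this, norm_smul, Real.norm_of_nonneg (by positivity), add_mul, one_mul, mul_assoc,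
        inv_mul_cancel₀ hk0.ne', mul_one]

/-- approximate eigenvectors of a complex Banach space operator -/
theorem approx_eigen {X : Type*} [NormedAddCommGroup X] [NormedSpace ℂ X] [CompleteSpace X]
    [Nontrivial X] (b : X →L[ℂ] X) :
    ∃ k : ℂ, ∀ δ : ℝ, 0 < δ → ∃ w : X, w ≠ 0 ∧ ‖b w - k • w‖ ≤ δ * ‖w‖ := by
  obtain ⟨k, hk, hr⟩ := spectrum.exists_nnnorm_eq_spectralRadius b
  refine ⟨k, fun δ hδ => ?_⟩
  obtain ⟨e, he, hdir⟩ := exists_unit_dir k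
  set η : ℝ := δ / 3 with hη
  have hη0 : 0 < η := by positivity
  set μ : ℂ := k + η • e with hμ
  have hμn : ‖μ‖ = ‖k‖ + η := hdir η hη0.le
  have hμr : μ ∈ resolventSet ℂ b := by
    apply spectrum.mem_resolventSet_of_spectralRadius_lt
    rw [← hr]
    have : ‖k‖₊ < ‖μ‖₊ := by
      rw [← NNReal.coe_lt_coe, coe_nnnorm, coe_nnnorm, hμn]
      linarith
    exact_mod_cast this
  obtain ⟨u, hu⟩ : IsUnit (algebraMap ℂ (X →L[ℂ] X) μ - b) := hμr
  have hbig : (2 * η)⁻¹ < ‖((u⁻¹ : (X →L[ℂ] X)ˣ) : X →L[ℂ] X)‖ := by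
    by_contra hcon
    push Not at hcon
    apply hk
    show IsUnit (algebraMap ℂ (X →L[ℂ] X) k - b)
    have h1 : algebraMap ℂ (X →L[ℂ] X) k - b = (u : X →L[ℂ] X) - algebraMap ℂ (X →L[ℂ] X) (η • e) := by
      rw [hu, hμ, map_add]; abel
    have h2 : ‖algebraMap ℂ (X →L[ℂ] X) (η • e)‖ < ‖((u⁻¹ : (X →L[ℂ] X)ˣ) : X →L[ℂ] X)‖⁻¹ := by
      rw [norm_algebraMap', norm_smul, he, mul_one, Real.norm_of_nonneg hη0.le]
      have hpos : 0 < ‖((u⁻¹ : (X →L[ℂ] X)ˣ) : X →L[ℂ] X)‖ := norm_pos_iff.2 (Units.ne_zero _)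
      rw [lt_inv_comm₀ hη0 hpos]
      refine lt_of_le_of_lt hcon ?_
      rw [inv_lt_inv₀ (by positivity) hη0]
      linarith
    rw [h1, sub_eq_add_neg]
    have h3 : ‖-algebraMap ℂ (X →L[ℂ] X) (η • e)‖ < ‖((u⁻¹ : (X →L[ℂ] X)ˣ) : X →L[ℂ] X)‖⁻¹ := by
      rw [norm_neg]; exact h2
    exact ⟨Units.add u _ h3, rfl⟩
  obtain ⟨z, hz1, hz⟩ := ContinuousLinearMap.exists_lt_apply_of_lt_opNorm _ hbig
  set w : X := ((u⁻¹ : (X →L[ℂ] X)ˣ) : X →L[ℂ] X) z with hw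
  have hw0 : 0 < ‖w‖ := lt_trans (by positivity) hz
  refine ⟨w, norm_pos_iff.1 hw0, ?_⟩
  have huw : (u : X →L[ℂ] X) w = z := by
    rw [hw, ← mul_apply_eq_comp, Units.mul_inv, one_apply_eq_self]
  have h4 : μ • w - b w = z := by
    rw [← huw, hu, ContinuousLinearMap.sub_apply, Algebra.algebraMap_eq_smul_one,
      ContinuousLinearMap.smul_apply, ContinuousLinearMap.one_apply]
  have h5 : b w - k • w = (η • e) • w - z := by
    rw [← h4, hμ, add_smul]; abel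
  have h6 : ‖z‖ ≤ 2 * η * ‖w‖ := by
    have : 1 < 2 * η * ‖w‖ := by
      rw [inv_lt_iff_one_lt_mul₀ (by positivity)] at hz
      linarith
    linarith
  calc ‖b w - k • w‖ ≤ ‖(η • e) • w‖ + ‖z‖ := by rw [h5]; exact norm_sub_le _ _
    _ = η * ‖w‖ + ‖z‖ := by rw [norm_smul, norm_smul, he, mul_one, Real.norm_of_nonneg hη0.le]
    _ ≤ δ * ‖w‖ := by rw [hη] at *; nlinarith

/-- the real form -/
theorem exists_quad [CompleteSpace Y] [Nontrivial Y] (a : Y →L[ℝ] Y) :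
    ∃ s t : ℝ, ∀ δ : ℝ, 0 < δ → ∃ y : Y, y ≠ 0 ∧
      ‖(a - algebraMap ℝ (Y →L[ℝ] Y) s) ((a - algebraMap ℝ (Y →L[ℝ] Y) s) y) + (t * t) • y‖ ≤ δ * ‖y‖ := by
  obtain ⟨k, hk⟩ := approx_eigen (CE.ext1 a)
  refine ⟨k.re, k.im, fun δ hδ => ?_⟩
  set C : ℝ := ‖a‖ + ‖k‖ + 1 with hC
  have hC0 : 0 < C := by positivity
  obtain ⟨w, hw0, hw⟩ := hk (δ / (2 * C)) (by positivity)
  have hwpos : 0 < ‖w‖ := norm_pos_iff.2 hw0
  -- a good value
  obtain ⟨c, hc⟩ : ∃ c : ℂ, (1/2) * ‖w‖ * ‖c‖ < ‖w.fn c‖ := by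
    by_contra hcon
    push Not at hcon
    have := CE.norm_le (f := w) (by positivity) hcon
    linarith
  have hc0 : 0 < ‖w.fn c‖ := lt_of_le_of_lt (by positivity) hc
  refine ⟨w.fn c, norm_pos_iff.1 hc0, ?_⟩
  -- `v = (a - k) w`
  set v : CE Y := CE.ext1 a w - k • w with hv
  have h1 : ∀ x : ℂ, v.fn x = a (w.fn x) - w.fn (k * x) := fun x => rfl
  have h2 : (a - algebraMap ℝ (Y →L[ℝ] Y) k.re) ((a - algebraMap ℝ (Y →L[ℝ] Y) k.re) (w.fn c)) +
      (k.im * k.im) • w.fn c = a (v.fn c) - v.fn ((starRingEnd ℂ) k * c) := by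
    have e0 : ∀ y : Y, (a - algebraMap ℝ (Y →L[ℝ] Y) k.re) y = a y - k.re • y := by
      intro y
      rw [ContinuousLinearMap.sub_apply, Algebra.algebraMap_eq_smul_one,
        ContinuousLinearMap.smul_apply, ContinuousLinearMap.one_apply]
    rw [e0, e0, h1, h1]
    have e1 : k * ((starRingEnd ℂ) k * c) = (k.re * k.re + k.im * k.im : ℝ) • c := by
      rw [← mul_assoc, Complex.mul_conj, Complex.normSq_apply, Complex.real_smul]
    have e2 : k * c + (starRingEnd ℂ) k * c = (2 * k.re : ℝ) • c := by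
      rw [← add_mul, Complex.add_conj, Complex.real_smul]
    have e3 : w.fn (k * c) + w.fn ((starRingEnd ℂ) k * c) = (2 * k.re) • w.fn c := by
      rw [← map_add, e2, map_smul]
    have e4 : w.fn ((starRingEnd ℂ) k * c) = (2 * k.re) • w.fn c - w.fn (k * c) := by
      rw [← e3]; abel
    rw [e1, map_smul, e4]
    simp only [map_sub, map_smul]
    module
  rw [h2]
  have h3 : ‖v‖ ≤ δ / (2 * C) * ‖w‖ := hw
  have h4 : ‖a (v.fn c)‖ ≤ ‖a‖ * (‖v‖ * ‖c‖) :=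
    (a.le_opNorm _).trans (mul_le_mul_of_nonneg_left (v.apply_le c) (norm_nonneg _))
  have h5 : ‖v.fn ((starRingEnd ℂ) k * c)‖ ≤ ‖v‖ * (‖k‖ * ‖c‖) := by
    refine (v.apply_le _).trans (le_of_eq ?_)
    rw [norm_mul, Complex.norm_conj]
  calc ‖a (v.fn c) - v.fn ((starRingEnd ℂ) k * c)‖ ≤ ‖a‖ * (‖v‖ * ‖c‖) + ‖v‖ * (‖k‖ * ‖c‖) :=
        (norm_sub_le _ _).trans (add_le_add h4 h5)
    _ = (‖a‖ + ‖k‖) * (‖v‖ * ‖c‖) := by ring
    _ ≤ C * (δ / (2 * C) * ‖w‖ * ‖c‖) := by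
        apply mul_le_mul _ _ (by positivity) hC0.le
        · rw [hC]; linarith
        · exact mul_le_mul_of_nonneg_right h3 (norm_nonneg _)
    _ = δ * ((1/2) * ‖w‖ * ‖c‖) := by field_simp
    _ ≤ δ * ‖w.fn c‖ := mul_le_mul_of_nonneg_left hc.le hδ.le

end

end Pool.Agent.TH596.RO
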