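import Mathlib

/-!
# Frobenius' theorem for real algebras without zero divisors in which every element is quadratic
-/

set_option autoImplicit false

namespace Pool.Agent.TH596.RO

open Quaternion

section
variable {D : Type*} [Ring D] [Algebra ℝ D] [Nontrivial D] [NoZeroDivisors D]

/-- every element satisfies `(a - s)^2 + t^2 = 0` -/
def Quad (D : Type*) [Ring D] [Algebra ℝ D] : Prop :=
  ∀ a : D, ∃ s t : ℝ, (a - algebraMap ℝ D s) * (a - algebraMap ℝ D s) + algebraMap ℝ D (t * t) = 0

omit [Nontrivial D] [NoZeroDivisors D] in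
theorem eq_zero_of_eq_neg' (x : D) (h : x = -x) : x = 0 := by
  have h2 : (2 : ℝ) • x = 0 := by
    rw [two_smul]
    nth_rewrite 1 [h]
    exact neg_add_cancel x
  exact (smul_eq_zero.1 h2).resolve_left two_ne_zero

omit [Nontrivial D] [NoZeroDivisors D] in
theorem amap_comm (r : ℝ) (a : D) : algebraMap ℝ D r * a = a * algebraMap ℝ D r :=
  Algebra.commutes r a

/-- elements commuting with `i` are in `ℝ + ℝ i` -/
theorem comm_mem (hQ : Quad D) {i : D} (hi : i * i = -1) {d : D} (hd : d * i = i * d) :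
    ∃ s t : ℝ, d = algebraMap ℝ D s + algebraMap ℝ D t * i := by
  obtain ⟨s, t, h⟩ := hQ d
  have h1 : (d - algebraMap ℝ D s - algebraMap ℝ D t * i) * (d - algebraMap ℝ D s + algebraMap ℝ D t * i) = 0 := by
    have e1 : algebraMap ℝ D (t * t) = algebraMap ℝ D t * algebraMap ℝ D t := map_mul _ _ _
    have c1 : algebraMap ℝ D t * d = d * algebraMap ℝ D t := amap_comm t d
    have c2 : algebraMap ℝ D t * i = i * algebraMap ℝ D t := amap_comm t i
    have c3 : algebraMap ℝ D s * i = i * algebraMap ℝ D s := amap_comm s i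
    have c4 : algebraMap ℝ D t * algebraMap ℝ D s = algebraMap ℝ D s * algebraMap ℝ D t := amap_comm t _
    have e2 : (algebraMap ℝ D t * i) * (algebraMap ℝ D t * i) = - (algebraMap ℝ D t * algebraMap ℝ D t) := by
      rw [c2, mul_assoc, ← mul_assoc (algebraMap ℝ D t), c2, mul_assoc i, ← mul_assoc i i, hi]
      noncomm_ring
    have e3 : (d - algebraMap ℝ D s) * (algebraMap ℝ D t * i) = (algebraMap ℝ D t * i) * (d - algebraMap ℝ D s) := by
      rw [sub_mul, mul_sub, mul_assoc (algebraMap ℝ D t) i d, ← hd, ← mul_assoc (algebraMap ℝ D t) d i, c1,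
        mul_assoc d, mul_assoc (algebraMap ℝ D t) i (algebraMap ℝ D s), ← c3,
        ← mul_assoc (algebraMap ℝ D t) (algebraMap ℝ D s) i, c4, mul_assoc (algebraMap ℝ D s)]
    rw [sub_mul, mul_add, mul_add, e3, e2]
    rw [e1] at h
    have : (d - algebraMap ℝ D s) * (d - algebraMap ℝ D s) = - (algebraMap ℝ D t * algebraMap ℝ D t) :=
      eq_neg_of_add_eq_zero_left h
    rw [this]
    abel
  rcases mul_eq_zero.1 h1 with h2 | h2
  · exact ⟨s, t, by rw [sub_sub, sub_eq_zero] at h2; exact h2⟩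
  · refine ⟨s, -t, ?_⟩
    rw [sub_add, sub_eq_zero] at h2
    rw [map_neg, neg_mul, ← sub_eq_add_neg]
    exact h2

theorem frobenius (hQ : Quad D) :
    Nonempty (D ≃ₐ[ℝ] ℝ) ∨ Nonempty (D ≃ₐ[ℝ] ℂ) ∨ Nonempty (D ≃ₐ[ℝ] ℍ[ℝ]) := by
  by_cases hR : ∀ a : D, ∃ s : ℝ, a = algebraMap ℝ D s
  · left
    refine ⟨(AlgEquiv.ofBijective (Algebra.ofId ℝ D) ⟨?_, ?_⟩).symm⟩
    · exact (algebraMap ℝ D).injective
    · intro a; obtain ⟨s, hs⟩ := hR a; exact ⟨s, hs.symm⟩
  right
  push Not at hR
  obtain ⟨a, ha⟩ := hR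
  -- the imaginary unit
  obtain ⟨i, hi⟩ : ∃ i : D, i * i = -1 := by
    obtain ⟨s, t, h⟩ := hQ a
    have ht : t ≠ 0 := by
      rintro rfl
      rw [mul_zero, map_zero, add_zero] at h
      have := mul_self_eq_zero.1 h
      exact ha s (sub_eq_zero.1 this)
    refine ⟨algebraMap ℝ D t⁻¹ * (a - algebraMap ℝ D s), ?_⟩
    have h2 : (a - algebraMap ℝ D s) * (a - algebraMap ℝ D s) = - algebraMap ℝ D (t * t) :=
      eq_neg_of_add_eq_zero_left h
    calc algebraMap ℝ D t⁻¹ * (a - algebraMap ℝ D s) * (algebraMap ℝ D t⁻¹ * (a - algebraMap ℝ D s))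
        = algebraMap ℝ D t⁻¹ * algebraMap ℝ D t⁻¹ * ((a - algebraMap ℝ D s) * (a - algebraMap ℝ D s)) := by
          rw [mul_assoc, ← mul_assoc (a - algebraMap ℝ D s), ← amap_comm t⁻¹ (a - algebraMap ℝ D s)]
          simp only [mul_assoc]
      _ = -1 := by
          rw [h2, mul_neg, ← map_mul, ← map_mul]
          have : t⁻¹ * t⁻¹ * (t * t) = 1 := by field_simp
          rw [this, map_one]
  -- the decomposition
  have hplus : ∀ d : D, (d - i * d * i) * i = i * (d - i * d * i) := by
    intro d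
    have e1 : (d - i * d * i) * i = d * i - i * d * (i * i) := by noncomm_ring
    have e2 : i * (d - i * d * i) = i * d - (i * i) * d * i := by noncomm_ring
    rw [e1, e2, hi]
    noncomm_ring
  have hminus : ∀ d : D, (d + i * d * i) * i = - (i * (d + i * d * i)) := by
    intro d
    have e1 : (d + i * d * i) * i = d * i + i * d * (i * i) := by noncomm_ring
    have e2 : i * (d + i * d * i) = i * d + (i * i) * d * i := by noncomm_ring
    rw [e1, e2, hi]
    noncomm_ring
  have hhalf : ∀ d : D, d = algebraMap ℝ D (1/2) * (d - i * d * i) + algebraMap ℝ D (1/2) * (d + i * d * i) := by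
    intro d
    rw [← mul_add]
    have : d - i * d * i + (d + i * d * i) = algebraMap ℝ D 2 * d := by
      rw [show (2 : ℝ) = 1 + 1 by norm_num, map_add, map_one]; noncomm_ring
    rw [this, ← mul_assoc, ← map_mul]
    norm_num
  have hC0 : ∀ d : D, d * i = i * d → ∃ s t : ℝ, d = algebraMap ℝ D s + algebraMap ℝ D t * i :=
    fun d hd => comm_mem hQ hi hd
  -- nonzero anticommuting element
  by_cases hM : ∀ d : D, d * i = - (i * d) → d = 0
  · left
    have hsur : ∀ d : D, ∃ s t : ℝ, d = algebraMap ℝ D s + algebraMap ℝ D t * i := by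
      intro d
      have h1 := hM _ (hminus d)
      obtain ⟨s, t, h2⟩ := hC0 _ (hplus d)
      refine ⟨1/2 * s, 1/2 * t, ?_⟩
      rw [hhalf d, h1, mul_zero, add_zero, h2, mul_add, ← map_mul, ← mul_assoc, ← map_mul]
    let f : ℂ →ₐ[ℝ] D := Complex.lift ⟨i, hi⟩
    refine ⟨(AlgEquiv.ofBijective f ⟨f.toRingHom.injective, ?_⟩).symm⟩
    intro d
    obtain ⟨s, t, h⟩ := hsur d
    refine ⟨⟨s, t⟩, ?_⟩
    rw [h]
    show Complex.lift ⟨i, hi⟩ (⟨s, t⟩ : ℂ) = _
    rw [Complex.lift_apply, Complex.liftAux_apply, Algebra.smul_def]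
  · right
    push Not at hM
    obtain ⟨d, hd, hd0⟩ := hM
    -- `d² = -t²`
    have hd2 : (d * d) * i = i * (d * d) := by
      rw [mul_assoc, hd, mul_neg, ← mul_assoc, hd]; noncomm_ring
    obtain ⟨s', t', h3⟩ := hC0 _ hd2
    obtain ⟨s, t, h⟩ := hQ d
    have h4 : d * d - algebraMap ℝ D (2 * s) * d + algebraMap ℝ D (s * s + t * t) = 0 := by
      rw [← h, sub_mul, mul_sub, mul_sub, ← amap_comm s d, two_mul, map_add, map_add, map_mul (algebraMap ℝ D) s s, add_mul]
      noncomm_ring
    -- the anticommuting part vanishes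
    have h5 : algebraMap ℝ D (2 * s) * d = 0 := by
      have h6 : algebraMap ℝ D (2 * s) * d = d * d + algebraMap ℝ D (s * s + t * t) := by
        have := h4
        rw [sub_add_eq_add_sub, sub_eq_zero] at this
        exact this.symm
      have h7 : (algebraMap ℝ D (2 * s) * d) * i = i * (algebraMap ℝ D (2 * s) * d) := by
        rw [h6, add_mul, mul_add, hd2, amap_comm]
      have h8 : (algebraMap ℝ D (2 * s) * d) * i = - (i * (algebraMap ℝ D (2 * s) * d)) := by
        rw [mul_assoc, hd, mul_neg, ← mul_assoc, ← mul_assoc, amap_comm (2 * s) i]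
      have h9 : i * (algebraMap ℝ D (2 * s) * d) = - (i * (algebraMap ℝ D (2 * s) * d)) := h7.symm.trans h8
      have h10 : i * (algebraMap ℝ D (2 * s) * d) = 0 := eq_zero_of_eq_neg' _ h9
      have hine : i ≠ 0 := by
        rintro rfl
        rw [zero_mul] at hi
        exact one_ne_zero (neg_eq_zero.1 hi.symm)
      rcases mul_eq_zero.1 h10 with h12 | h12
      · exact absurd h12 hine
      · exact h12
    have hs : s = 0 := by
      rcases mul_eq_zero.1 h5 with h6 | h6
      · rw [map_eq_zero_iff _ (algebraMap ℝ D).injective] at h6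
        linarith
      · exact absurd h6 hd0
    subst hs
    rw [mul_zero, map_zero, zero_mul, sub_zero, mul_zero, zero_add] at h4
    have hdd : d * d = - algebraMap ℝ D (t * t) := eq_neg_of_add_eq_zero_left h4
    have ht : t ≠ 0 := by
      rintro rfl
      rw [mul_zero, map_zero, neg_zero] at hdd
      exact hd0 (mul_self_eq_zero.1 hdd)
    obtain ⟨j, hj, hji⟩ : ∃ j : D, j * j = -1 ∧ j * i = - (i * j) := by
      refine ⟨algebraMap ℝ D t⁻¹ * d, ?_, ?_⟩
      · calc algebraMap ℝ D t⁻¹ * d * (algebraMap ℝ D t⁻¹ * d)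
            = algebraMap ℝ D t⁻¹ * algebraMap ℝ D t⁻¹ * (d * d) := by
              rw [mul_assoc, ← mul_assoc d, ← amap_comm t⁻¹ d]
              simp only [mul_assoc]
          _ = -1 := by
              rw [hdd, mul_neg, ← map_mul, ← map_mul]
              have : t⁻¹ * t⁻¹ * (t * t) = 1 := by field_simp
              rw [this, map_one]
      · rw [mul_assoc, hd, mul_neg, ← mul_assoc, ← mul_assoc, amap_comm t⁻¹ i]
    -- the quaternion basis
    let q : QuaternionAlgebra.Basis D (-1 : ℝ) 0 (-1) :=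
      { i := i
        j := j
        k := i * j
        i_mul_i := by rw [hi]; simp
        j_mul_j := by rw [hj]; simp
        i_mul_j := rfl
        j_mul_i := by rw [hji]; simp }
    let f : ℍ[ℝ] →ₐ[ℝ] D := q.liftHom
    have hinj : Function.Injective f := f.toRingHom.injective
    refine ⟨(AlgEquiv.ofBijective f ⟨hinj, ?_⟩).symm⟩
    have hC : ∀ d : D, d * i = i * d → ∃ s t : ℝ, d = algebraMap ℝ D s + algebraMap ℝ D t * i := hC0
    have hCj : ∀ d : D, d * i = - (i * d) → ∃ s t : ℝ, d = algebraMap ℝ D s * j + algebraMap ℝ D t * (i * j) := by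
      intro e he
      have h1 : (e * j) * i = i * (e * j) := by
        rw [mul_assoc, hji, mul_neg, ← mul_assoc, he]; noncomm_ring
      obtain ⟨s, t, h2⟩ := hC _ h1
      have h3 : e = - ((e * j) * j) := by rw [mul_assoc, hj]; noncomm_ring
      refine ⟨-s, -t, ?_⟩
      rw [h3, h2, map_neg, map_neg]
      noncomm_ring
    intro e
    obtain ⟨s1, t1, h1⟩ := hC _ (hplus e)
    obtain ⟨s2, t2, h2⟩ := hCj _ (hminus e)
    refine ⟨⟨1/2 * s1, 1/2 * t1, 1/2 * s2, 1/2 * t2⟩, ?_⟩
    rw [hhalf e, h1, h2]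
    show q.lift _ = _
    unfold QuaternionAlgebra.Basis.lift
    simp only [Algebra.smul_def, map_mul]
    show algebraMap ℝ D (1/2) * algebraMap ℝ D s1 + algebraMap ℝ D (1/2) * algebraMap ℝ D t1 * i +
      algebraMap ℝ D (1/2) * algebraMap ℝ D s2 * j + algebraMap ℝ D (1/2) * algebraMap ℝ D t2 * (i * j) = _
    noncomm_ring

end

end Pool.Agent.TH596.RO
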